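import Pool.Agent.H456R3.S.F15
set_option autoImplicit false
set_option linter.unusedSectionVars false
set_option linter.unusedVariables false
open MeasureTheory Metric Set Filter Topology Function
open scoped ENNReal NNReal

/-!
# Cells of optimal potentials

Uniform count of the unit cells met by the finiteness set of an optimal potential.
-/

namespace Pool.Agent.Q235.PB

open Pool.Agent.H456R3.S

variable {d k : ℕ}

theorem lamK_congr_le {V W : (Fin d → ℝ) → ℝ≥0∞} (h : V =ᵐ[volume] W) : lamK k V ≤ lamK k W := by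
  unfold lamK
  refine le_iInf fun u => le_iInf fun g => le_iInf fun hu => ?_
  have e1 : ∀ f : (Fin d → ℝ) → ℝ≥0∞, ∫⁻ x, V x * f x = ∫⁻ x, W x * f x := fun f =>
    lintegral_congr_ae (by filter_upwards [h] with x hx; rw [hx])
  refine iInf_le_of_le u (iInf_le_of_le g (iInf_le_of_le
    ⟨hu.1, hu.2.1, hu.2.2.1, fun j => by rw [e1]; exact hu.2.2.2.1 j, hu.2.2.2.2⟩ ?_))
  refine le_of_eq (iSup_congr fun c => iSup_congr fun hc => ?_)
  congr 1
  exact lintegral_congr_ae (by filter_upwards [h] with x hx; rw [hx])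

theorem lamK_congr {V W : (Fin d → ℝ) → ℝ≥0∞} (h : V =ᵐ[volume] W) : lamK k V = lamK k W :=
  le_antisymm (lamK_congr_le h) (lamK_congr_le h.symm)

/-- at most three integers are within `3/2` of a real number -/
theorem three_slabs (F : Finset ℤ) (t : ℝ) :
    (F.filter fun q : ℤ => |t - q| < 3 / 2).card ≤ 3 := by
  have h : (F.filter fun q : ℤ => |t - q| < 3 / 2) ⊆ Finset.Icc (⌈t - 3/2⌉) (⌈t - 3/2⌉ + 2) := by
    intro q hq
    rw [Finset.mem_filter] at hq
    rw [Finset.mem_Icc]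
    have h1 := abs_lt.1 hq.2
    constructor
    · rw [Int.ceil_le]; linarith [h1.2]
    · have h2 : (q : ℝ) < (⌈t - 3/2⌉ : ℝ) + 3 := by
        have := Int.le_ceil (t - 3/2)
        linarith [h1.1]
      have h3 : q < ⌈t - 3/2⌉ + 3 := by exact_mod_cast h2
      omega
  refine (Finset.card_le_card h).trans ?_
  simp only [Int.card_Icc]
  omega

/-- the masses of a pair on the slabs of a family of integers sum up to at most three times
the total mass -/
theorem sum_ia_le {z : Pr d} (hz : H1 z) (i : Fin d) (F : Finset ℤ) :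
    ∑ q ∈ F, ia (slab i (q : ℝ) (3/2)) z ≤ 3 * n2 z := by
  unfold ia n2
  rw [← integral_finsetSum _ fun q _ => ia_int (slab_meas _ _ _) hz, ← integral_const_mul]
  refine integral_mono_of_nonneg
    (Eventually.of_forall fun x => Finset.sum_nonneg fun q _ =>
      indicator_nonneg (fun _ _ => mul_self_nonneg _) _)
    ((imul hz.mu hz.mu).const_mul 3) (Eventually.of_forall fun x => ?_)
  have h1 : ∑ q ∈ F, (slab i (q : ℝ) (3/2)).indicator (fun x => z.1 x * z.1 x) x =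
      ∑ q ∈ F.filter fun q : ℤ => |x i - q| < 3 / 2, z.1 x * z.1 x := by
    rw [Finset.sum_filter]
    refine Finset.sum_congr rfl fun q _ => ?_
    rfl
  show ∑ q ∈ F, (slab i (q : ℝ) (3/2)).indicator (fun x => z.1 x * z.1 x) x ≤ _
  rw [h1, Finset.sum_const, nsmul_eq_mul]
  have h2 : (((F.filter fun q : ℤ => |x i - q| < 3 / 2).card : ℕ) : ℝ) ≤ 3 := by
    exact_mod_cast three_slabs F (x i)
  exact mul_le_mul_of_nonneg_right h2 (mul_self_nonneg _)

/-- **Uniform cell count.** -/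
theorem cells (d : ℕ) (hk : 1 ≤ k) {p : ℝ} (hp0 : 0 < p) (hp1 : p ≤ 1) (Λ : ℝ) :
    ∃ N : ℕ, ∀ (V : (Fin d → ℝ) → ℝ≥0∞), Measurable V → ∫⁻ x, V x ^ (-p) ≤ 1 →
      lamK k V ≤ ENNReal.ofReal Λ →
      (∀ W : (Fin d → ℝ) → ℝ≥0∞, Measurable W → ∫⁻ x, W x ^ (-p) ≤ 1 →
        (∀ x, V x = ∞ → W x = ∞) → lamK k V ≤ lamK k W) →
      ∃ T : Finset (Fin d → ℤ), T.card ≤ N ∧
        ∀ᵐ x, V x ≠ ∞ → (fun i => round (x i)) ∈ T := by
  obtain ⟨ε0, hε0, hse⟩ := slab_empty (k := k) d hk hp0 hp1 (le_max_right Λ 0)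
  refine ⟨⌈3 * (k : ℝ) / ε0⌉₊ ^ d, fun V hV hV1 hle hopt => ?_⟩
  have hfin : lamK k V ≠ ∞ := ne_top_of_le_ne_top ENNReal.ofReal_ne_top hle
  set l := (lamK k V).toReal with hl
  have hl0 : 0 ≤ l := ENNReal.toReal_nonneg
  have hlam : lamK k V = ENNReal.ofReal l := (ENNReal.ofReal_toReal hfin).symm
  have hlΛ : l ≤ max Λ 0 := by
    rw [hlam] at hle
    rcases le_or_gt 0 Λ with h | h
    · exact ((ENNReal.ofReal_le_ofReal_iff h).1 hle).trans (le_max_left _ _)
    · rw [ENNReal.ofReal_of_nonpos h.le] at hle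
      have := ENNReal.ofReal_eq_zero.1 (le_antisymm hle zero_le)
      exact this.trans (le_max_right _ _)
  obtain ⟨U, hU, hq⟩ := eigenframe hV hp0 hp1 hV1 hl0 hlam
  have hmain := hse V hV hV1 l hl0 hlΛ hlam hopt U hU hq
  have horth : OrthP (fun j => (U j : Pr d)) := orth_iff.1 hU.1
  -- bad integers
  let B : Fin d → Set ℤ := fun i =>
    {q | ε0 < bb (fun j => (U j : Pr d)) (slab i (q : ℝ) (3/2))}
  have hcard : ∀ i (F : Finset ℤ), (↑F : Set ℤ) ⊆ B i → F.card ≤ ⌈3 * (k : ℝ) / ε0⌉₊ := by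
    intro i F hF
    have h1 : (F.card : ℝ) * ε0 ≤ 3 * k := by
      calc (F.card : ℝ) * ε0 = ∑ q ∈ F, ε0 := by rw [Finset.sum_const, nsmul_eq_mul]
        _ ≤ ∑ q ∈ F, bb (fun j => (U j : Pr d)) (slab i (q : ℝ) (3/2)) :=
            Finset.sum_le_sum fun q hq => (hF hq).le
        _ = ∑ j, ∑ q ∈ F, ia (slab i (q : ℝ) (3/2)) (U j : Pr d) := by
            unfold bb; rw [Finset.sum_comm]
        _ ≤ ∑ j : Fin k, 3 * n2 (U j : Pr d) := Finset.sum_le_sum fun j _ => sum_ia_le (HV.h1 _) i F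
        _ = 3 * k := by
            have h2 : ∀ j, n2 (U j : Pr d) = 1 := fun j => horth.n2 j
            simp [h2, mul_comm]
    have h3 : (F.card : ℝ) ≤ 3 * k / ε0 := by rwa [le_div_iff₀ hε0]
    exact_mod_cast h3.trans (Nat.le_ceil _)
  have hBf : ∀ i, (B i).Finite := by
    intro i
    by_contra hinf
    obtain ⟨F, hF, hc⟩ := Set.Infinite.exists_subset_card_eq hinf (⌈3 * (k : ℝ) / ε0⌉₊ + 1)
    have := hcard i F hF
    omega
  refine ⟨Fintype.piFinset fun i => (hBf i).toFinset, ?_, ?_⟩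
  · rw [Fintype.card_piFinset]
    calc ∏ i : Fin d, ((hBf i).toFinset).card ≤ ∏ i : Fin d, ⌈3 * (k : ℝ) / ε0⌉₊ :=
          Finset.prod_le_prod (fun _ _ => Nat.zero_le _) fun i _ =>
            hcard i _ (by rw [Set.Finite.coe_toFinset])
      _ = _ := by simp
  · have hall : ∀ᵐ x : Fin d → ℝ, ∀ (i : Fin d) (q : ℤ), q ∉ B i → |x i - q| ≤ 1/2 → V x = ∞ := by
      rw [ae_all_iff]; intro i
      rw [ae_all_iff]; intro q
      by_cases hq : q ∈ B i
      · exact Eventually.of_forall fun x h => absurd hq h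
      · have h1 : bb (fun j => (U j : Pr d)) (slab i (q : ℝ) (3/2)) ≤ ε0 := not_lt.1 hq
        filter_upwards [hmain i q h1] with x hx _ using hx
    filter_upwards [hall] with x hx hxV
    rw [Fintype.mem_piFinset]
    intro i
    rw [Set.Finite.mem_toFinset]
    by_contra hq
    exact hxV (hx i (round (x i)) hq (abs_sub_round (x i)))

/-- the same for almost everywhere measurable potentials -/
theorem cells_ae (d : ℕ) (hk : 1 ≤ k) {p : ℝ} (hp0 : 0 < p) (hp1 : p ≤ 1) (Λ : ℝ) :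
    ∃ N : ℕ, ∀ (V : (Fin d → ℝ) → ℝ≥0∞), AEMeasurable V volume → ∫⁻ x, V x ^ (-p) ≤ 1 →
      lamK k V ≤ ENNReal.ofReal Λ →
      (∀ W : (Fin d → ℝ) → ℝ≥0∞, AEMeasurable W volume → ∫⁻ x, W x ^ (-p) ≤ 1 →
        (∀ᵐ x, V x = ∞ → W x = ∞) → lamK k V ≤ lamK k W) →
      ∃ T : Finset (Fin d → ℤ), T.card ≤ N ∧
        ∀ᵐ x, V x ≠ ∞ → (fun i => round (x i)) ∈ T := by
  obtain ⟨N, hN⟩ := cells (k := k) d hk hp0 hp1 Λ
  refine ⟨N, fun V hV hV1 hle hopt => ?_⟩
  have hae := hV.ae_eq_mk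
  have e1 : ∫⁻ x, (hV.mk V) x ^ (-p) = ∫⁻ x, V x ^ (-p) :=
    lintegral_congr_ae (by filter_upwards [hae] with x hx; rw [hx])
  have e2 : lamK k (hV.mk V) = lamK k V := lamK_congr hae.symm
  obtain ⟨T, hT, hT2⟩ := hN (hV.mk V) hV.measurable_mk (e1.le.trans hV1) (e2.le.trans hle)
    fun W hW hW1 hW2 => by
      rw [e2]
      refine hopt W hW.aemeasurable hW1 ?_
      filter_upwards [hae] with x hx h
      exact hW2 x (by rw [← hx]; exact h)
  refine ⟨T, hT, ?_⟩
  filter_upwards [hT2, hae] with x hx h1 h2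
  exact hx (by rw [← h1]; exact h2)

end Pool.Agent.Q235.PB
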